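import Pool.Agent.Q211.Pam.Trotter

open Filter Topology NormedSpace

namespace Pool.Agent.Q211.Pam

variable {F : Type*} [NormedAddCommGroup F] [NormedSpace ℝ F] {κ : Type*}
  (δ : κ → F →L[ℝ] ℝ)

/-- The cone of operators preserving the functions that are nonnegative at every point. -/
noncomputable def opCone : Cone (F →L[ℝ] F) ({f : F // ∀ x, 0 ≤ δ x f} × κ) where
  fn i := (δ i.2).comp (ContinuousLinearMap.apply ℝ F i.1.1)
  one' i := i.1.2 i.2
  mul' _ b ha hb i := ha (⟨b i.1.1, fun x => hb (i.1, x)⟩, i.2)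

lemma opCone_pos {T : F →L[ℝ] F} :
    (opCone δ).Pos T ↔ ∀ f, (∀ x, 0 ≤ δ x f) → ∀ x, 0 ≤ δ x (T f) :=
  ⟨fun h f hf x => h (⟨f, hf⟩, x), fun h i => h i.1.1 i.1.2 i.2⟩

variable [CompleteSpace F]

/-- The flow started from `f`, seen at a point. -/
noncomputable def flow (H : F →L[ℝ] F) (f : F) (t : ℝ) (x : κ) : ℝ :=
  δ x (NormedSpace.exp (t • H) f)

omit [CompleteSpace F] in
lemma flow_zero (H : F →L[ℝ] F) (f : F) (x : κ) : flow δ H f 0 x = δ x f := by
  rw [flow, zero_smul, NormedSpace.exp_zero]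
  rfl

lemma flow_deriv (H : F →L[ℝ] F) (f : F) (t : ℝ) (x : κ) :
    HasDerivAt (fun s => flow δ H f s x) (δ x (H (NormedSpace.exp (t • H) f))) t := by
  have h1 : HasDerivAt (fun u : ℝ => NormedSpace.exp (u • H))
      (H * NormedSpace.exp (t • H)) t := hasDerivAt_exp_smul_const' H t
  exact ((δ x).comp (ContinuousLinearMap.apply ℝ F f)).hasFDerivAt.comp_hasDerivAt t h1

lemma flow_bound (H : F →L[ℝ] F) (f : F) {t : ℝ} (ht : 0 ≤ t) (x : κ) (hx : ‖δ x‖ ≤ 1) :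
    |flow δ H f t x| ≤ Real.exp (t * ‖H‖) * ‖f‖ := by
  have h1 : ‖(1 : F →L[ℝ] F)‖ ≤ 1 := ContinuousLinearMap.norm_id_le
  have h2 := norm_exp_le h1 (t • H)
  rw [norm_smul, Real.norm_of_nonneg ht] at h2
  have h3 : ‖NormedSpace.exp (t • H) f‖ ≤ Real.exp (t * ‖H‖) * ‖f‖ :=
    (ContinuousLinearMap.le_opNorm _ _).trans (mul_le_mul_of_nonneg_right h2 (norm_nonneg _))
  rw [← Real.norm_eq_abs, flow]
  refine ((δ x).le_opNorm _).trans ?_
  refine (mul_le_mul hx h3 (norm_nonneg _) zero_le_one).trans ?_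
  rw [one_mul]

lemma exp_shift (A : F →L[ℝ] F) (c t : ℝ) : NormedSpace.exp (t • (A + c • 1)) =
    Real.exp (c * t) • NormedSpace.exp (t • A) := by
  have h2 : NormedSpace.exp ((t * c) • (1 : F →L[ℝ] F)) =
      Real.exp (c * t) • (1 : F →L[ℝ] F) := by
    have := NormedSpace.algebraMap_exp_comm (𝕂 := ℝ) (𝔸 := F →L[ℝ] F) (t * c)
    rw [Algebra.algebraMap_eq_smul_one, Algebra.algebraMap_eq_smul_one] at this
    rw [← this, Real.exp_eq_exp_ℝ, mul_comm]
  have hc : Commute ((t * c) • (1 : F →L[ℝ] F)) (t • A) :=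
    (Commute.one_left _).smul_left _
  rw [smul_add, smul_smul, add_comm, exp_add_comm hc, h2, smul_mul_assoc, one_mul]

lemma flow_scaling {L R W : F →L[ℝ] F} (hL : (opCone δ).Pos L) (hR : (opCone δ).Pos R)
    (hRL : R * L = 1) (hLR : L * R = 1) (hW : (opCone δ).Pos W) (c : ℝ) {f : F}
    (hf : ∀ x, 0 ≤ δ x f) {s t : ℝ} (hs : 0 < s) (hst : s ≤ t) (x : κ) :
    s * Real.exp (-(c * s)) * flow δ ((1 / 2 : ℝ) • (GG L R + W) + c • 1) f s x ≤
      t * Real.exp (-(c * t)) * flow δ ((1 / 2 : ℝ) • (GG L R + W) + c • 1) f t x := by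
  have h1 : ‖(1 : F →L[ℝ] F)‖ ≤ 1 := ContinuousLinearMap.norm_id_le
  have hl : 1 ≤ t / s := by rw [le_div_iff₀ hs]; linarith
  have h := scaling h1 hL hR hRL hLR hl (half_pos hs).le hW (⟨f, hf⟩, x)
  have h' : 0 ≤ δ x (((t / s) • NormedSpace.exp ((t / s * (s / 2)) • (GG L R + W)) -
      NormedSpace.exp ((s / 2) • (GG L R + W))) f) := h
  have e1 : t / s * (s / 2) = t / 2 := by field_simp
  rw [e1, sub_apply, map_sub, smul_apply, map_smul,
    smul_eq_mul] at h'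
  have e2 : ∀ r : ℝ, flow δ ((1 / 2 : ℝ) • (GG L R + W) + c • 1) f r x =
      Real.exp (c * r) * δ x (NormedSpace.exp ((r / 2) • (GG L R + W)) f) := by
    intro r
    rw [flow, exp_shift, smul_smul, smul_apply, map_smul, smul_eq_mul]
    congr 4
    congr 1
    ring
  rw [e2, e2]
  have e3 : ∀ r y : ℝ, r * Real.exp (-(c * r)) * (Real.exp (c * r) * y) = r * y := by
    intro r y
    have : Real.exp (-(c * r)) * Real.exp (c * r) = 1 := by
      rw [← Real.exp_add]; simp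
    calc _ = r * (Real.exp (-(c * r)) * Real.exp (c * r)) * y := by ring
      _ = r * y := by rw [this, mul_one]
  rw [e3, e3]
  have h4 : 0 ≤ s * (t / s * δ x (NormedSpace.exp ((t / 2) • (GG L R + W)) f) -
      δ x (NormedSpace.exp ((s / 2) • (GG L R + W)) f)) := mul_nonneg hs.le h'
  have h5 : s * (t / s * δ x (NormedSpace.exp ((t / 2) • (GG L R + W)) f) -
      δ x (NormedSpace.exp ((s / 2) • (GG L R + W)) f)) =
      t * δ x (NormedSpace.exp ((t / 2) • (GG L R + W)) f) -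
      s * δ x (NormedSpace.exp ((s / 2) • (GG L R + W)) f) := by
    field_simp
  rw [h5] at h4
  linarith

lemma exp_ge_term {A : F →L[ℝ] F} (hA : (opCone δ).Pos A) {f : F} (hf : ∀ x, 0 ≤ δ x f)
    {t : ℝ} (ht : 0 ≤ t) (n : ℕ) (x : κ) :
    ((n.factorial : ℝ)⁻¹ * t ^ n) * δ x ((A ^ n) f) ≤ δ x (NormedSpace.exp (t • A) f) := by
  have h1 := hasSum_exp (t • A)
  have h2 := ((δ x).comp (ContinuousLinearMap.apply ℝ F f)).hasSum h1
  have hterm : ∀ k : ℕ, ((δ x).comp (ContinuousLinearMap.apply ℝ F f))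
      (((k.factorial : ℝ)⁻¹) • (t • A) ^ k) =
      ((k.factorial : ℝ)⁻¹ * t ^ k) * δ x ((A ^ k) f) := by
    intro k
    rw [smul_pow, smul_smul]
    show δ x ((((k.factorial : ℝ)⁻¹ * t ^ k) • A ^ k) f) = _
    rw [smul_apply, map_smul, smul_eq_mul]
  have h3 := le_hasSum h2 n (fun k _ => by
    show 0 ≤ ((δ x).comp (ContinuousLinearMap.apply ℝ F f))
      (((k.factorial : ℝ)⁻¹) • (t • A) ^ k)
    rw [hterm]
    exact mul_nonneg (by positivity) ((opCone_pos δ).1 (Cone.pow hA k) f hf x))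
  have h4 : ((δ x).comp (ContinuousLinearMap.apply ℝ F f))
      (((n.factorial : ℝ)⁻¹) • (t • A) ^ n) ≤ δ x (NormedSpace.exp (t • A) f) := h3
  rwa [hterm] at h4

lemma flow_pos {A : F →L[ℝ] F} (hA : (opCone δ).Pos A) {f : F} (hf : ∀ x, 0 ≤ δ x f)
    {t : ℝ} (ht : 0 < t) (n : ℕ) (x : κ) (hn : 0 < δ x ((A ^ n) f)) (c : ℝ) :
    0 < flow δ (A + c • 1) f t x := by
  have h3 := exp_ge_term δ hA hf ht.le n x
  have h4 : 0 < ((n.factorial : ℝ)⁻¹ * t ^ n) * δ x ((A ^ n) f) :=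
    mul_pos (by positivity) hn
  have h5 : flow δ (A + c • 1) f t x =
      Real.exp (c * t) * δ x (NormedSpace.exp (t • A) f) := by
    rw [flow, exp_shift, smul_apply, map_smul, smul_eq_mul]
  rw [h5]
  exact mul_pos (Real.exp_pos _) (h4.trans_le h3)

end Pool.Agent.Q211.Pam
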