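import Pool.Agent.Q211.Pam.Flow

open Filter Topology NormedSpace

namespace Pool.Agent.Q211.Pam

/-- `u` solves the parabolic Anderson problem with potential `ξ` and initial condition `u0`,
continuously in time and boundedly on bounded time intervals. -/
structure IsPAM (ξ u0 : ℤ → ℝ) (u : ℝ → ℤ → ℝ) : Prop where
  init : ∀ x, u 0 x = u0 x
  cont : ∀ x, ContinuousOn (fun t => u t x) (Set.Ici 0)
  eqn : ∀ x t, 0 < t → HasDerivAt (fun s => u s x)
    (1 / 2 * (u t (x + 1) + u t (x - 1) - 2 * u t x) + ξ x * u t x) t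
  bdd : ∀ T, ∃ M, ∀ t, 0 ≤ t → t ≤ T → ∀ x, |u t x| ≤ M

lemma unique_aux {w : ℝ → ℤ → ℝ} {ξ : ℤ → ℝ} {Ξ K T : ℝ} (hΞ : ∀ x, |ξ x| ≤ Ξ)
    (hw0 : ∀ x, w 0 x = 0) (hcont : ∀ x, ContinuousOn (fun t => w t x) (Set.Ici 0))
    (heq : ∀ x t, 0 < t → HasDerivAt (fun s => w s x)
      (1 / 2 * (w t (x + 1) + w t (x - 1) - 2 * w t x) + ξ x * w t x) t)
    (hb : ∀ t, 0 ≤ t → t ≤ T → ∀ x, |w t x| ≤ K) (k : ℕ) :
    ∀ t, 0 ≤ t → t ≤ T → ∀ x, |w t x| ≤ K * (((2 + Ξ) * t) ^ k / k.factorial) := by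
  induction k with
  | zero => simpa using hb
  | succ k ih =>
    intro t ht htT x
    have hΞ0 : 0 ≤ Ξ := (abs_nonneg _).trans (hΞ 0)
    have hK : 0 ≤ K := (abs_nonneg _).trans (hb t ht htT x)
    have hpd : ∀ s : ℝ, HasDerivAt (fun s : ℝ => K * (((2 + Ξ) * s) ^ (k + 1) /
        (k + 1).factorial)) ((2 + Ξ) * (K * (((2 + Ξ) * s) ^ k / k.factorial))) s := by
      intro s
      have h1 : HasDerivAt (fun s : ℝ => (2 + Ξ) * s) ((2 + Ξ) * 1) s :=
        (hasDerivAt_id s).const_mul (2 + Ξ)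
      have h2 := ((h1.pow (k + 1)).div_const ((k + 1).factorial : ℝ)).const_mul K
      refine HasDerivAt.congr_deriv h2 ?_
      rw [Nat.factorial_succ]
      push_cast
      field_simp
    have hder : ∀ s, 0 < s → s ≤ T → |1 / 2 * (w s (x + 1) + w s (x - 1) - 2 * w s x) +
        ξ x * w s x| ≤ (2 + Ξ) * (K * (((2 + Ξ) * s) ^ k / k.factorial)) := by
      intro s hs hsT
      set B := K * (((2 + Ξ) * s) ^ k / k.factorial) with hB
      have a1 := ih s hs.le hsT (x + 1)
      have a2 := ih s hs.le hsT (x - 1)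
      have a3 := ih s hs.le hsT x
      have hB0 : 0 ≤ B := (abs_nonneg _).trans a3
      have a4 : |ξ x * w s x| ≤ Ξ * B := by
        rw [abs_mul]
        exact mul_le_mul (hΞ x) a3 (abs_nonneg _) hΞ0
      rw [abs_le] at a1 a2 a3 a4 ⊢
      constructor <;> linarith [a1.1, a1.2, a2.1, a2.2, a3.1, a3.2, a4.1, a4.2]
    have hkey : ∀ σ : ℝ, |σ| ≤ 1 → σ * w t x ≤ K * (((2 + Ξ) * t) ^ (k + 1) /
        (k + 1).factorial) := by
      intro σ hσ
      have hm : MonotoneOn (fun s : ℝ => K * (((2 + Ξ) * s) ^ (k + 1) / (k + 1).factorial) -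
          σ * w s x) (Set.Icc 0 t) := by
        have hd : ∀ s, 0 < s → HasDerivAt (fun s : ℝ => K * (((2 + Ξ) * s) ^ (k + 1) /
            (k + 1).factorial) - σ * w s x)
            ((2 + Ξ) * (K * (((2 + Ξ) * s) ^ k / k.factorial)) -
              σ * (1 / 2 * (w s (x + 1) + w s (x - 1) - 2 * w s x) + ξ x * w s x)) s :=
          fun s hs => (hpd s).sub ((heq x s hs).const_mul σ)
        refine monotoneOn_of_deriv_nonneg (convex_Icc 0 t) ?_ ?_ ?_
        · refine ContinuousOn.sub (fun s _ => (hpd s).continuousAt.continuousWithinAt) ?_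
          exact ((hcont x).mono fun s hs => hs.1).const_mul σ
        · intro s hs
          rw [interior_Icc] at hs
          exact (hd s hs.1).differentiableAt.differentiableWithinAt
        · intro s hs
          rw [interior_Icc] at hs
          rw [(hd s hs.1).deriv]
          have h1 := hder s hs.1 (hs.2.le.trans htT)
          have h2 : |σ * (1 / 2 * (w s (x + 1) + w s (x - 1) - 2 * w s x) + ξ x * w s x)| ≤
              (2 + Ξ) * (K * (((2 + Ξ) * s) ^ k / k.factorial)) := by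
            rw [abs_mul]
            calc _ ≤ 1 * |1 / 2 * (w s (x + 1) + w s (x - 1) - 2 * w s x) + ξ x * w s x| :=
                  mul_le_mul_of_nonneg_right hσ (abs_nonneg _)
              _ ≤ _ := by rw [one_mul]; exact h1
          linarith [(abs_le.1 h2).2]
      have h := hm (Set.left_mem_Icc.2 ht) (Set.right_mem_Icc.2 ht) ht
      simp only [hw0, mul_zero] at h
      have h0 : ((0 : ℝ)) ^ (k + 1) = 0 := zero_pow (Nat.succ_ne_zero k)
      rw [h0] at h
      simp only [zero_div, mul_zero, sub_zero] at h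
      linarith
    rw [abs_le]
    constructor
    · have := hkey (-1) (by simp)
      linarith
    · have := hkey 1 (by simp)
      linarith

lemma IsPAM.unique {ξ u0 : ℤ → ℝ} {u v : ℝ → ℤ → ℝ} {Ξ : ℝ} (hΞ : ∀ x, |ξ x| ≤ Ξ)
    (hu : IsPAM ξ u0 u) (hv : IsPAM ξ u0 v) {t : ℝ} (ht : 0 ≤ t) (x : ℤ) : u t x = v t x := by
  obtain ⟨M1, h1⟩ := hu.bdd t
  obtain ⟨M2, h2⟩ := hv.bdd t
  have h := unique_aux (w := fun t x => u t x - v t x) (ξ := ξ) (K := M1 + M2) (T := t) hΞ
    (fun x => by show u 0 x - v 0 x = 0; rw [hu.init, hv.init, sub_self])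
    (fun x => (hu.cont x).sub (hv.cont x))
    (fun x s hs => by
      refine HasDerivAt.congr_deriv ((hu.eqn x s hs).sub (hv.eqn x s hs)) ?_
      ring)
    (fun s hs hst y => by
      have a := h1 s hs hst y
      have b := h2 s hs hst y
      have := abs_sub (u s y) (v s y)
      show |u s y - v s y| ≤ M1 + M2
      linarith)
  have hlim : Tendsto (fun k : ℕ => (M1 + M2) * (((2 + Ξ) * t) ^ k / k.factorial)) atTop
      (𝓝 0) := by
    simpa using (FloorSemiring.tendsto_pow_div_factorial_atTop ((2 + Ξ) * t)).const_mul (M1 + M2)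
  have h3 : |u t x - v t x| ≤ 0 := ge_of_tendsto hlim
    (Eventually.of_forall fun k => h k t ht le_rfl x)
  have h4 := abs_nonpos_iff.1 h3
  linarith

/-- Bounded functions on the lattice. -/
abbrev E := BoundedContinuousFunction ℤ ℝ

/-- Evaluation at a point. -/
noncomputable def pt (x : ℤ) : E →L[ℝ] ℝ := BoundedContinuousFunction.evalCLM ℝ x

lemma pt_apply (x : ℤ) (f : E) : pt x f = f x := rfl

lemma pt_norm (x : ℤ) : ‖pt x‖ ≤ 1 := by
  refine ContinuousLinearMap.opNorm_le_bound _ zero_le_one fun f => ?_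
  rw [one_mul]
  exact f.norm_coe_le_norm x

/-- The translation operator. -/
noncomputable def sh (k : ℤ) : E →L[ℝ] E :=
  BoundedContinuousFunction.compContinuousCLM ℝ ℝ ⟨fun x => x + k, continuous_of_discreteTopology⟩

lemma sh_apply (k : ℤ) (f : E) (x : ℤ) : sh k f x = f (x + k) := rfl

lemma sh_pos (k : ℤ) : (opCone pt).Pos (sh k) :=
  (opCone_pos pt).2 fun _ hf x => hf (x + k)

lemma sh_mul : sh 1 * sh (-1) = 1 := by
  ext f x
  show f (x + 1 + -1) = f x
  congr 1
  ring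

lemma sh_mul' : sh (-1) * sh 1 = 1 := by
  ext f x
  show f (x + -1 + 1) = f x
  congr 1
  ring

/-- Multiplication by a bounded function. -/
noncomputable def mulOp (w : E) : E →L[ℝ] E := ContinuousLinearMap.mul ℝ E w

lemma mulOp_apply (w f : E) (x : ℤ) : mulOp w f x = w x * f x := rfl

lemma mulOp_pos {w : E} (hw : ∀ x, 0 ≤ w x) : (opCone pt).Pos (mulOp w) :=
  (opCone_pos pt).2 fun _ hf x => mul_nonneg (hw x) (hf x)

/-- A bounded function as an element of the Banach space. -/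
noncomputable def toE (g : ℤ → ℝ) (C : ℝ) (h : ∀ x, |g x| ≤ C) : E :=
  BoundedContinuousFunction.ofNormedAddCommGroupDiscrete g C h

lemma toE_apply (g : ℤ → ℝ) (C : ℝ) (h : ∀ x, |g x| ≤ C) (x : ℤ) : toE g C h x = g x := rfl

/-- The main statement for a fixed environment. -/
theorem main {ξ : ℤ → ℝ} {c M : ℝ} (hc : 0 < c) (hξ : ∀ x, c ≤ ξ x ∧ ξ x ≤ M) {u0 : ℤ → ℝ}
    {C : ℝ} (h0 : ∀ y, 0 ≤ u0 y ∧ u0 y ≤ C) (hpos : ∃ y, 0 < u0 y) :
    ∃ u : ℝ → ℤ → ℝ, IsPAM ξ u0 u ∧
      (∀ v, IsPAM ξ u0 v → ∀ t, 0 ≤ t → ∀ x, v t x = u t x) ∧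
      (∀ t, 0 < t → ∀ x, 0 < u t x) ∧
      (∀ x s t, 0 < s → s ≤ t →
        s * Real.exp (-(c * s)) * u s x ≤ t * Real.exp (-(c * t)) * u t x) ∧
      (∀ x, StrictMonoOn (fun t => u t x) (Set.Ici (1 / c))) := by
  have hC : ∀ y, |u0 y| ≤ C := fun y => by
    rw [abs_of_nonneg (h0 y).1]; exact (h0 y).2
  have hΞ : ∀ x, |ξ x| ≤ M := fun x => by
    rw [abs_of_nonneg (hc.le.trans (hξ x).1)]; exact (hξ x).2
  have hw : ∀ x, |2 * (ξ x - c)| ≤ 2 * M := fun x => by
    rw [abs_of_nonneg (by linarith [(hξ x).1])]; linarith [(hξ x).2]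
  set f := toE u0 C hC with hf
  set w := toE (fun x => 2 * (ξ x - c)) (2 * M) hw with hwdef
  set H := (1 / 2 : ℝ) • (GG (sh (-1)) (sh 1) + mulOp w) + c • (1 : E →L[ℝ] E) with hH
  have hf0 : ∀ x, 0 ≤ pt x f := fun x => (h0 x).1
  have hWpos : (opCone pt).Pos (mulOp w) := mulOp_pos fun x => by
    show 0 ≤ 2 * (ξ x - c); linarith [(hξ x).1]
  have hHx : ∀ (g : E) (x : ℤ), H g x = 1 / 2 * (g (x + 1) + g (x - 1) - 2 * g x) + ξ x * g x := by
    intro g x
    show (1 / 2 : ℝ) * (g (x + -1) + g (x + 1) - 2 * g x + 2 * (ξ x - c) * g x) + c * g x = _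
    rw [← sub_eq_add_neg]
    ring
  have hsol : IsPAM ξ u0 (flow pt H f) := by
    refine ⟨fun x => flow_zero pt H f x, fun x => fun t _ =>
      (flow_deriv pt H f t x).continuousAt.continuousWithinAt, fun x t _ => ?_, fun T => ?_⟩
    · have := flow_deriv pt H f t x
      rw [pt_apply, hHx] at this
      exact this
    · refine ⟨Real.exp (T * ‖H‖) * ‖f‖, fun t ht htT x => ?_⟩
      refine (flow_bound pt H f ht x (pt_norm x)).trans ?_
      refine mul_le_mul_of_nonneg_right (Real.exp_le_exp.2 ?_) (norm_nonneg _)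
      exact mul_le_mul_of_nonneg_right htT (norm_nonneg _)
  have hposu : ∀ t, 0 < t → ∀ x, 0 < flow pt H f t x := by
    intro t ht x
    set A := (1 / 2 : ℝ) • (sh (-1) + sh 1) + mulOp (toE ξ M hΞ) with hA
    have hApos : (opCone pt).Pos A :=
      Cone.add (Cone.smul (Cone.add (sh_pos _) (sh_pos _)) (by norm_num))
        (mulOp_pos fun x => hc.le.trans (hξ x).1)
    have hAx : ∀ (g : E) (x : ℤ), A g x = 1 / 2 * (g (x - 1) + g (x + 1)) + ξ x * g x := by
      intro g x
      show (1 / 2 : ℝ) * (g (x + -1) + g (x + 1)) + ξ x * g x = _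
      rw [← sub_eq_add_neg]
    have hHA : H = A + (-1 : ℝ) • 1 := by
      ext g x
      rw [hHx]
      show _ = A g x + (-1 : ℝ) * g x
      rw [hAx]
      ring
    have hAn : ∀ (n : ℕ) (y : ℤ), 0 ≤ (A ^ n) f y := fun n y =>
      (opCone_pos pt).1 (Cone.pow hApos n) f hf0 y
    have hAs : ∀ (n : ℕ) (y : ℤ), (A ^ (n + 1)) f y =
        1 / 2 * ((A ^ n) f (y - 1) + (A ^ n) f (y + 1)) + ξ y * (A ^ n) f y := by
      intro n y
      rw [pow_succ']
      exact hAx ((A ^ n) f) y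
    obtain ⟨y0, hy0⟩ := hpos
    have hreach : ∃ n : ℕ, 0 < (A ^ n) f x := by
      refine Int.inductionOn' x y0 ⟨0, hy0⟩ ?_ ?_
      · intro k _ ih
        obtain ⟨n, hn⟩ := ih
        refine ⟨n + 1, ?_⟩
        rw [hAs]
        have e : k + 1 - 1 = k := by ring
        rw [e]
        have h1 := hAn n (k + 1 + 1)
        have h2 := mul_nonneg (hc.le.trans (hξ (k + 1)).1) (hAn n (k + 1))
        linarith
      · intro k _ ih
        obtain ⟨n, hn⟩ := ih
        refine ⟨n + 1, ?_⟩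
        rw [hAs]
        have e : k - 1 + 1 = k := by ring
        rw [e]
        have h1 := hAn n (k - 1 - 1)
        have h2 := mul_nonneg (hc.le.trans (hξ (k - 1)).1) (hAn n (k - 1))
        linarith
    obtain ⟨n, hn⟩ := hreach
    rw [hHA]
    exact flow_pos pt hApos hf0 ht n x hn (-1)
  have hscal : ∀ x s t, 0 < s → s ≤ t →
      s * Real.exp (-(c * s)) * flow pt H f s x ≤ t * Real.exp (-(c * t)) * flow pt H f t x :=
    fun x s t hs hst => flow_scaling pt (sh_pos _) (sh_pos _) sh_mul sh_mul' hWpos c hf0 hs hst x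
  refine ⟨flow pt H f, hsol, fun v hv t ht x => hv.unique hΞ hsol ht x, hposu, hscal, ?_⟩
  intro x s hs t ht hst
  have hs' : 1 / c ≤ s := hs
  have hs0 : 0 < s := lt_of_lt_of_le (by positivity) hs'
  have ht0 : 0 < t := hs0.trans hst
  have h1 := hscal x s t hs0 hst.le
  have hus := hposu s hs0 x
  have h2 : t / s < Real.exp (c * (t - s)) := by
    have h3 : t / s ≤ c * (t - s) + 1 := by
      rw [div_le_iff₀ hs0]
      have h4 : 1 ≤ c * s := by
        rw [div_le_iff₀ hc] at hs'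
        linarith
      nlinarith
    exact h3.trans_lt (Real.add_one_lt_exp (by
      have : 0 < c * (t - s) := mul_pos hc (by linarith)
      exact this.ne'))
  show flow pt H f s x < flow pt H f t x
  have h5 : t < s * Real.exp (c * (t - s)) := by
    rw [div_lt_iff₀ hs0] at h2
    linarith
  have h6 : Real.exp (-(c * s)) = Real.exp (-(c * t)) * Real.exp (c * (t - s)) := by
    rw [← Real.exp_add]; congr 1; ring
  rw [h6] at h1
  have h7 : Real.exp (-(c * t)) * (s * Real.exp (c * (t - s)) * flow pt H f s x) ≤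
      Real.exp (-(c * t)) * (t * flow pt H f t x) := by
    calc _ = s * (Real.exp (-(c * t)) * Real.exp (c * (t - s))) * flow pt H f s x := by ring
      _ ≤ _ := h1
      _ = _ := by ring
  have h8 := le_of_mul_le_mul_left h7 (Real.exp_pos _)
  have h9 : t * flow pt H f s x < s * Real.exp (c * (t - s)) * flow pt H f s x :=
    mul_lt_mul_of_pos_right h5 hus
  exact lt_of_mul_lt_mul_left (h9.trans_le h8) ht0.le

end Pool.Agent.Q211.Pam
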