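import Mathlib

open Filter Topology NormedSpace

namespace Pool.Agent.Q211.Pam

/-- A closed multiplicative cone cut out by continuous functionals. -/
structure Cone (𝔸 : Type*) [NormedRing 𝔸] [NormedAlgebra ℝ 𝔸] (ι : Type*) where
  /-- The functionals. -/
  fn : ι → 𝔸 →L[ℝ] ℝ
  one' : ∀ i, 0 ≤ fn i 1
  mul' : ∀ a b, (∀ i, 0 ≤ fn i a) → (∀ i, 0 ≤ fn i b) → ∀ i, 0 ≤ fn i (a * b)

variable {𝔸 : Type*} [NormedRing 𝔸] [NormedAlgebra ℝ 𝔸] {ι : Type*} (C : Cone 𝔸 ι)

/-- Membership in the cone. -/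
def Cone.Pos (a : 𝔸) : Prop := ∀ i, 0 ≤ C.fn i a

variable {C}

lemma Cone.one : C.Pos 1 := C.one'

lemma Cone.add {A B : 𝔸} (hA : C.Pos A) (hB : C.Pos B) : C.Pos (A + B) := fun i => by
  rw [map_add]; exact add_nonneg (hA i) (hB i)

lemma Cone.smul {A : 𝔸} (hA : C.Pos A) {r : ℝ} (hr : 0 ≤ r) : C.Pos (r • A) := fun i => by
  rw [map_smul]; exact mul_nonneg hr (hA i)

lemma Cone.mul {A B : 𝔸} (hA : C.Pos A) (hB : C.Pos B) : C.Pos (A * B) := C.mul' A B hA hB

lemma Cone.pow {A : 𝔸} (hA : C.Pos A) (n : ℕ) : C.Pos (A ^ n) := by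
  induction n with
  | zero => rw [pow_zero]; exact Cone.one
  | succ n ih => rw [pow_succ]; exact Cone.mul ih hA

lemma Cone.hasSum {κ : Type*} {g : κ → 𝔸} {a : 𝔸} (h : HasSum g a) (hg : ∀ i, C.Pos (g i)) :
    C.Pos a := by
  intro i
  have h1 : HasSum (fun k => C.fn i (g k)) (C.fn i a) := (C.fn i).hasSum h
  exact h1.nonneg fun k => hg k i

lemma Cone.tendsto {g : ℕ → 𝔸} {a : 𝔸} (h : Tendsto g atTop (𝓝 a))
    (hg : ∀ᶠ i in atTop, C.Pos (g i)) : C.Pos a := by
  intro i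
  have h1 : Tendsto (fun k => C.fn i (g k)) atTop (𝓝 (C.fn i a)) :=
    ((C.fn i).continuous.tendsto a).comp h
  refine ge_of_tendsto h1 ?_
  filter_upwards [hg] with k hk using hk i

variable [CompleteSpace 𝔸]

lemma hasSum_exp (A : 𝔸) : HasSum (fun n : ℕ => ((n.factorial : ℝ)⁻¹) • A ^ n) (exp A) :=
  NormedSpace.exp_series_hasSum_exp' (𝕂 := ℝ) A

lemma Cone.exp {A : 𝔸} (hA : C.Pos A) : C.Pos (NormedSpace.exp A) :=
  Cone.hasSum (hasSum_exp A) fun n => Cone.smul (Cone.pow hA n) (by positivity)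

omit [NormedAlgebra ℝ 𝔸] [CompleteSpace 𝔸] in
lemma norm_pow_le_pow (h1 : ‖(1 : 𝔸)‖ ≤ 1) (A : 𝔸) (n : ℕ) : ‖A ^ n‖ ≤ ‖A‖ ^ n := by
  induction n with
  | zero => rw [pow_zero, pow_zero]; exact h1
  | succ n ih =>
    rw [pow_succ, pow_succ]
    exact (norm_mul_le _ _).trans (mul_le_mul_of_nonneg_right ih (norm_nonneg _))

lemma norm_exp_le (h1 : ‖(1 : 𝔸)‖ ≤ 1) (A : 𝔸) : ‖NormedSpace.exp A‖ ≤ Real.exp ‖A‖ := by
  have h2 : HasSum (fun n : ℕ => ((n.factorial : ℝ)⁻¹) * ‖A‖ ^ n) (Real.exp ‖A‖) := by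
    have := NormedSpace.exp_series_hasSum_exp' (𝕂 := ℝ) (𝔸 := ℝ) ‖A‖
    rw [Real.exp_eq_exp_ℝ]
    simpa using this
  refine (hasSum_exp A).norm_le_of_bounded h2 fun n => ?_
  rw [norm_smul, Real.norm_of_nonneg (by positivity)]
  exact mul_le_mul_of_nonneg_left (norm_pow_le_pow h1 A n) (by positivity)

lemma exp_add_comm {x y : 𝔸} (h : Commute x y) :
    NormedSpace.exp (x + y) = NormedSpace.exp x * NormedSpace.exp y := by
  let _ : NormedAlgebra ℚ 𝔸 := .restrictScalars ℚ ℝ 𝔸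
  exact NormedSpace.exp_add_of_commute h

lemma exp_nsmul' (n : ℕ) (x : 𝔸) : NormedSpace.exp (n • x) = NormedSpace.exp x ^ n := by
  let _ : NormedAlgebra ℚ 𝔸 := .restrictScalars ℚ ℝ 𝔸
  exact NormedSpace.exp_nsmul n x

/-- Twice the discrete Laplacian generator, from the two translations. -/
def GG (L R : 𝔸) : 𝔸 := L + R - (2 : ℝ) • 1

variable {L R : 𝔸}

lemma exp_GG (hRL : R * L = 1) (hLR : L * R = 1) (t : ℝ) : NormedSpace.exp (t • GG L R) =
    Real.exp (-(2 * t)) • (NormedSpace.exp (t • L) * NormedSpace.exp (t • R)) := by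
  have hc : Commute L R := by rw [Commute, SemiconjBy, hRL, hLR]
  have h1 : t • GG L R = (-(2 * t)) • (1 : 𝔸) + (t • L + t • R) := by
    rw [GG, smul_sub, smul_add, smul_smul, neg_smul, mul_comm 2 t]
    abel
  have h2 : NormedSpace.exp ((-(2 * t)) • (1 : 𝔸)) = Real.exp (-(2 * t)) • (1 : 𝔸) := by
    have := NormedSpace.algebraMap_exp_comm (𝕂 := ℝ) (𝔸 := 𝔸) (-(2 * t))
    rw [Algebra.algebraMap_eq_smul_one, Algebra.algebraMap_eq_smul_one] at this
    rw [← this, Real.exp_eq_exp_ℝ]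
  have hc1 : Commute ((-(2 * t)) • (1 : 𝔸)) (t • L + t • R) :=
    (Commute.one_left _).smul_left _
  have hc2 : Commute (t • L) (t • R) := (hc.smul_left _).smul_right _
  rw [h1, exp_add_comm hc1, h2, exp_add_comm hc2, smul_mul_assoc, one_mul]

lemma hasSum_D (hRL : R * L = 1) (t : ℝ) :
    HasSum (fun b : ℕ => (((b : ℝ) + 1) - 2 * t + t ^ 2 / ((b : ℝ) + 1)) •
      (((b.factorial : ℝ)⁻¹ * t ^ b) • L ^ b))
    (NormedSpace.exp (t • L) + (t • L) * NormedSpace.exp (t • L) -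
      (2 * t) • NormedSpace.exp (t • L) +
      (t • R) * (NormedSpace.exp (t • L) - 1)) := by
  have h0 : HasSum (fun b : ℕ => ((b.factorial : ℝ)⁻¹ * t ^ b) • L ^ b)
      (NormedSpace.exp (t • L)) := by
    have h := hasSum_exp (t • L)
    have e : (fun n : ℕ => ((n.factorial : ℝ)⁻¹) • (t • L) ^ n) =
        fun b : ℕ => ((b.factorial : ℝ)⁻¹ * t ^ b) • L ^ b := by
      funext b
      rw [smul_pow, smul_smul]
    rwa [e] at h
  have h1 : HasSum (fun b : ℕ => (b : ℝ) • (((b.factorial : ℝ)⁻¹ * t ^ b) • L ^ b))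
      ((t • L) * NormedSpace.exp (t • L)) := by
    rw [← hasSum_nat_add_iff' 1]
    simp only [Finset.range_one, Finset.sum_singleton, Nat.cast_zero, zero_smul, sub_zero]
    have h := h0.mul_left (t • L)
    have e : (fun b : ℕ => (t • L) * (((b.factorial : ℝ)⁻¹ * t ^ b) • L ^ b)) =
        fun b : ℕ => ((b + 1 : ℕ) : ℝ) •
          ((((b + 1).factorial : ℝ)⁻¹ * t ^ (b + 1)) • L ^ (b + 1)) := by
      funext b
      rw [Nat.factorial_succ, smul_mul_smul_comm, smul_smul, ← pow_succ']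
      congr 1
      push_cast
      field_simp
      ring
    rwa [e] at h
  have h2 : HasSum (fun b : ℕ => (t ^ 2 / ((b : ℝ) + 1)) •
      (((b.factorial : ℝ)⁻¹ * t ^ b) • L ^ b))
      ((t • R) * (NormedSpace.exp (t • L) - 1)) := by
    have h3 : HasSum (fun b : ℕ => (((b + 1).factorial : ℝ)⁻¹ * t ^ (b + 1)) • L ^ (b + 1))
        (NormedSpace.exp (t • L) - 1) := by
      have := (hasSum_nat_add_iff' 1).2 h0
      simpa using this
    have h := h3.mul_left (t • R)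
    have e : (fun b : ℕ => (t • R) * ((((b + 1).factorial : ℝ)⁻¹ * t ^ (b + 1)) • L ^ (b + 1))) =
        fun b : ℕ => (t ^ 2 / ((b : ℝ) + 1)) • (((b.factorial : ℝ)⁻¹ * t ^ b) • L ^ b) := by
      funext b
      rw [Nat.factorial_succ, smul_mul_smul_comm, smul_smul, pow_succ' L b, ← mul_assoc R L,
        hRL, one_mul]
      congr 1
      push_cast
      field_simp
      ring
    rwa [e] at h
  have h := ((h0.add h1).sub (h0.const_smul (2 * t))).add h2
  have e : (fun b : ℕ => ((b.factorial : ℝ)⁻¹ * t ^ b) • L ^ b +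
      (b : ℝ) • (((b.factorial : ℝ)⁻¹ * t ^ b) • L ^ b) -
      (2 * t) • (((b.factorial : ℝ)⁻¹ * t ^ b) • L ^ b) +
      (t ^ 2 / ((b : ℝ) + 1)) • (((b.factorial : ℝ)⁻¹ * t ^ b) • L ^ b)) =
      fun b : ℕ => (((b : ℝ) + 1) - 2 * t + t ^ 2 / ((b : ℝ) + 1)) •
      (((b.factorial : ℝ)⁻¹ * t ^ b) • L ^ b) := by
    funext b
    rw [add_smul (((b : ℝ) + 1) - 2 * t), sub_smul, add_smul (b : ℝ) 1, one_smul]
    abel
  rwa [e] at h

lemma free_pos (hL : C.Pos L) (hR : C.Pos R) (hRL : R * L = 1) (hLR : L * R = 1)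
    {t : ℝ} (ht : 0 ≤ t) : C.Pos ((1 + t • GG L R) * NormedSpace.exp (t • GG L R)) := by
  set eL := NormedSpace.exp (t • L) with heL
  set eR := NormedSpace.exp (t • R) with heR
  have hD : C.Pos (eL + (t • L) * eL - (2 * t) • eL + (t • R) * (eL - 1)) := by
    refine Cone.hasSum (hasSum_D hRL t) fun b => ?_
    refine Cone.smul (Cone.smul (Cone.pow hL _) (by positivity)) ?_
    have hb : (0 : ℝ) < (b : ℝ) + 1 := by positivity
    have : ((b : ℝ) + 1) - 2 * t + t ^ 2 / ((b : ℝ) + 1) = ((b : ℝ) + 1 - t) ^ 2 / ((b : ℝ) + 1) := by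
      field_simp
      ring
    rw [this]
    positivity
  have hR' : C.Pos eR := Cone.exp (Cone.smul hR ht)
  have hkey : (1 + t • GG L R) * NormedSpace.exp (t • GG L R) = Real.exp (-(2 * t)) •
      ((eL + (t • L) * eL - (2 * t) • eL + (t • R) * (eL - 1)) * eR +
        (t • R) * eR) := by
    rw [exp_GG hRL hLR, ← heL, ← heR, mul_smul_comm]
    congr 1
    have : (1 : 𝔸) + t • GG L R = 1 + t • L + t • R - (2 * t) • 1 := by
      rw [GG, smul_sub, smul_add, smul_smul, mul_comm 2 t]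
      abel
    rw [this, ← mul_assoc]
    have h2 : (1 + t • L + t • R - (2 * t) • (1 : 𝔸)) * eL =
        eL + (t • L) * eL - (2 * t) • eL + (t • R) * eL := by
      rw [sub_mul, add_mul, add_mul, one_mul, smul_mul_assoc (2 * t), one_mul]
      abel
    rw [h2, mul_sub, mul_one]
    rw [← add_mul]
    congr 1
    abel
  rw [hkey]
  exact Cone.smul (Cone.add (Cone.mul hD hR') (Cone.mul (Cone.smul hR ht) hR'))
    (Real.exp_pos _).le

lemma free_mono (hL : C.Pos L) (hR : C.Pos R) (hRL : R * L = 1) (hLR : L * R = 1)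
    {l t : ℝ} (hl : 1 ≤ l) (ht : 0 ≤ t) :
    C.Pos (l • NormedSpace.exp ((l * t) • GG L R) - NormedSpace.exp (t • GG L R)) := by
  rcases ht.eq_or_lt with rfl | ht'
  · rw [mul_zero, zero_smul, NormedSpace.exp_zero]
    have : l • (1 : 𝔸) - 1 = (l - 1) • 1 := by rw [sub_smul, one_smul]
    rw [this]
    exact Cone.smul Cone.one (by linarith)
  intro i
  set G := GG L R with hG
  have hder : ∀ s : ℝ, HasDerivAt (fun s : ℝ => C.fn i (s • NormedSpace.exp (s • G)))
      (C.fn i ((1 + s • G) * NormedSpace.exp (s • G))) s := by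
    intro s
    have h1 : HasDerivAt (fun u : ℝ => NormedSpace.exp (u • G)) (G * NormedSpace.exp (s • G)) s :=
      hasDerivAt_exp_smul_const' G s
    have h2 := (hasDerivAt_id s).smul h1
    have h3 := (C.fn i).hasFDerivAt.comp_hasDerivAt s h2
    have h4 : (1 + s • G) * NormedSpace.exp (s • G) =
        (id s) • (G * NormedSpace.exp (s • G)) + (1 : ℝ) • NormedSpace.exp (s • G) := by
      rw [add_mul, one_mul, smul_mul_assoc, one_smul, id, add_comm]
    rw [h4]
    exact h3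
  have hmono : MonotoneOn (fun s : ℝ => C.fn i (s • NormedSpace.exp (s • G))) (Set.Ici 0) := by
    refine monotoneOn_of_deriv_nonneg (convex_Ici 0)
      (fun s _ => (hder s).continuousAt.continuousWithinAt)
      (fun s _ => (hder s).differentiableAt.differentiableWithinAt) fun s hs => ?_
    rw [interior_Ici] at hs
    rw [(hder s).deriv]
    exact free_pos hL hR hRL hLR (le_of_lt hs) i
  have h := hmono (show (t : ℝ) ∈ Set.Ici (0 : ℝ) from ht) (show l * t ∈ Set.Ici (0 : ℝ) from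
    mul_nonneg (by linarith) ht) (by nlinarith : t ≤ l * t)
  simp only [map_smul, smul_eq_mul] at h
  rw [map_sub, map_smul, smul_eq_mul]
  have h4 : 0 ≤ t * (l * C.fn i (NormedSpace.exp ((l * t) • G)) -
      C.fn i (NormedSpace.exp (t • G))) := by
    nlinarith
  exact nonneg_of_mul_nonneg_right h4 ht'

lemma exp_pow (A : 𝔸) (t : ℝ) (i : ℕ) :
    NormedSpace.exp (t • A) ^ i = NormedSpace.exp (((i : ℝ) * t) • A) := by
  rw [← exp_nsmul', ← Nat.cast_smul_eq_nsmul ℝ, smul_smul]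

lemma expG_pos (hL : C.Pos L) (hR : C.Pos R) (hRL : R * L = 1) (hLR : L * R = 1)
    {t : ℝ} (ht : 0 ≤ t) : C.Pos (NormedSpace.exp (t • GG L R)) := by
  rw [exp_GG hRL hLR]
  exact Cone.smul (Cone.mul (Cone.exp (Cone.smul hL ht)) (Cone.exp (Cone.smul hR ht)))
    (Real.exp_pos _).le

omit [CompleteSpace 𝔸] in
lemma mul_order {A A' B B' W : 𝔸} (hA : C.Pos A) (hA' : C.Pos (A' - A)) (hW : C.Pos W)
    (hB' : C.Pos B') (hBB : C.Pos (B' - B)) : C.Pos (A' * W * B' - A * W * B) := by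
  have : A' * W * B' - A * W * B = (A' - A) * W * B' + A * W * (B' - B) := by
    noncomm_ring
  rw [this]
  exact Cone.add (Cone.mul (Cone.mul hA' hW) hB') (Cone.mul (Cone.mul hA hW) hBB)

lemma step (hL : C.Pos L) (hR : C.Pos R) (hRL : R * L = 1) (hLR : L * R = 1)
    {l τ : ℝ} (hl : 1 ≤ l) (hτ : 0 ≤ τ) {W : 𝔸} (hW : C.Pos W) (j : ℕ) : ∀ i : ℕ,
    C.Pos (l • (NormedSpace.exp ((l * τ) • GG L R) ^ i *
        (NormedSpace.exp ((l * τ) • GG L R) * (1 + (l * τ) • W)) ^ j) -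
      NormedSpace.exp (τ • GG L R) ^ i * (NormedSpace.exp (τ • GG L R) * (1 + τ • W)) ^ j) := by
  have hl0 : 0 ≤ l := by linarith
  have hbase : ∀ i : ℕ, C.Pos (l • NormedSpace.exp ((l * τ) • GG L R) ^ i -
      NormedSpace.exp (τ • GG L R) ^ i) := by
    intro i
    rw [exp_pow, exp_pow]
    have := free_mono hL hR hRL hLR hl (show 0 ≤ (i : ℝ) * τ by positivity)
    have h2 : l * ((i : ℝ) * τ) = i * (l * τ) := by ring
    rwa [h2] at this
  have hK : C.Pos (NormedSpace.exp (τ • GG L R)) := expG_pos hL hR hRL hLR hτ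
  have hK' : C.Pos (NormedSpace.exp ((l * τ) • GG L R)) :=
    expG_pos hL hR hRL hLR (by positivity)
  have hX' : C.Pos (NormedSpace.exp ((l * τ) • GG L R) * (1 + (l * τ) • W)) :=
    Cone.mul hK' (Cone.add Cone.one (Cone.smul hW (by positivity)))
  set K := NormedSpace.exp (τ • GG L R) with hKdef
  set K' := NormedSpace.exp ((l * τ) • GG L R) with hK'def
  induction j with
  | zero =>
    intro i
    rw [pow_zero, pow_zero, mul_one, mul_one]
    exact hbase i
  | succ j ih =>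
    intro i
    have h1 := ih (i + 1)
    have h0 := ih 0
    rw [pow_zero, pow_zero, one_mul, one_mul] at h0
    have h2 := mul_order (Cone.pow hK (i + 1)) (hbase (i + 1)) hW
      (Cone.smul (Cone.pow hX' j) hl0) h0
    have h3 := Cone.add h1 (Cone.smul h2 hτ)
    have e1 : K ^ i * (K * (1 + τ • W)) ^ (j + 1) =
        K ^ (i + 1) * (K * (1 + τ • W)) ^ j +
          τ • (K ^ (i + 1) * W * (K * (1 + τ • W)) ^ j) := by
      rw [pow_succ' (K * (1 + τ • W)) j]
      have : K ^ i * (K * (1 + τ • W) * (K * (1 + τ • W)) ^ j) =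
          K ^ (i + 1) * (1 + τ • W) * (K * (1 + τ • W)) ^ j := by
        rw [pow_succ]
        simp only [mul_assoc]
      rw [this, mul_add, mul_one, add_mul, mul_smul_comm, smul_mul_assoc]
    have e2 : K' ^ i * (K' * (1 + (l * τ) • W)) ^ (j + 1) =
        K' ^ (i + 1) * (K' * (1 + (l * τ) • W)) ^ j +
          (l * τ) • (K' ^ (i + 1) * W * (K' * (1 + (l * τ) • W)) ^ j) := by
      rw [pow_succ' (K' * (1 + (l * τ) • W)) j]
      have : K' ^ i * (K' * (1 + (l * τ) • W) * (K' * (1 + (l * τ) • W)) ^ j) =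
          K' ^ (i + 1) * (1 + (l * τ) • W) * (K' * (1 + (l * τ) • W)) ^ j := by
        rw [pow_succ]
        simp only [mul_assoc]
      rw [this, mul_add, mul_one, add_mul, mul_smul_comm, smul_mul_assoc]
    have e4 : (l • K' ^ (i + 1)) * W * (l • (K' * (1 + (l * τ) • W)) ^ j) =
        (l * l) • (K' ^ (i + 1) * W * (K' * (1 + (l * τ) • W)) ^ j) := by
      rw [smul_mul_assoc, smul_mul_assoc, mul_smul_comm, smul_smul]
    rw [e4, smul_sub, smul_smul] at h3
    rw [e1, e2, smul_add, smul_smul]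
    have e3 : l * (l * τ) = τ * (l * l) := by ring
    rw [e3]
    convert h3 using 1
    abel

end Pool.Agent.Q211.Pam

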