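import Pool.Agent.Q211.Pam.Pos

open Filter Topology NormedSpace

namespace Pool.Agent.Q211.Pam

variable {𝔸 : Type*} [NormedRing 𝔸] [NormedAlgebra ℝ 𝔸]

omit [NormedAlgebra ℝ 𝔸] in
lemma norm_pow_sub_pow (h1 : ‖(1 : 𝔸)‖ ≤ 1) {X Y : 𝔸} {D : ℝ} (hD : 1 ≤ D) (hX : ‖X‖ ≤ D)
    (hY : ‖Y‖ ≤ D) (n : ℕ) : ‖X ^ n - Y ^ n‖ ≤ n * D ^ n * ‖X - Y‖ := by
  have hD0 : 0 ≤ D := by linarith
  induction n with
  | zero => simp
  | succ n ih =>
    have e : X ^ (n + 1) - Y ^ (n + 1) = X ^ n * (X - Y) + (X ^ n - Y ^ n) * Y := by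
      rw [pow_succ, pow_succ]; noncomm_ring
    rw [e]
    have hXn : ‖X ^ n‖ ≤ D ^ n := (norm_pow_le_pow h1 X n).trans (pow_le_pow_left₀ (norm_nonneg _) hX n)
    have ha : ‖X ^ n * (X - Y)‖ ≤ D ^ n * ‖X - Y‖ :=
      (norm_mul_le _ _).trans (mul_le_mul_of_nonneg_right hXn (norm_nonneg _))
    have hb : ‖(X ^ n - Y ^ n) * Y‖ ≤ (n * D ^ n * ‖X - Y‖) * D :=
      (norm_mul_le _ _).trans (mul_le_mul ih hY (norm_nonneg _) (by positivity))
    have hc : D ^ n * ‖X - Y‖ ≤ D ^ (n + 1) * ‖X - Y‖ :=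
      mul_le_mul_of_nonneg_right (pow_le_pow_right₀ hD (Nat.le_succ n)) (norm_nonneg _)
    calc ‖X ^ n * (X - Y) + (X ^ n - Y ^ n) * Y‖ ≤ _ := norm_add_le _ _
      _ ≤ D ^ (n + 1) * ‖X - Y‖ + (n * D ^ n * ‖X - Y‖) * D := add_le_add (ha.trans hc) hb
      _ = ((n + 1 : ℕ) : ℝ) * D ^ (n + 1) * ‖X - Y‖ := by push_cast; ring

variable [CompleteSpace 𝔸]

lemma trotter (h1 : ‖(1 : 𝔸)‖ ≤ 1) (A B : 𝔸) {t : ℝ} (ht : 0 ≤ t) :
    Tendsto (fun n : ℕ => (NormedSpace.exp ((t / n) • A) * (1 + (t / n) • B)) ^ n) atTop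
      (𝓝 (NormedSpace.exp (t • (A + B)))) := by
  set g : ℝ → 𝔸 := fun s => NormedSpace.exp (s • A) * (1 + s • B) - NormedSpace.exp (s • (A + B))
    with hg
  have hgd : HasDerivAt g 0 0 := by
    have ha : HasDerivAt (fun s : ℝ => NormedSpace.exp (s • A))
        (A * NormedSpace.exp ((0 : ℝ) • A)) 0 := hasDerivAt_exp_smul_const' A 0
    have hb : HasDerivAt (fun s : ℝ => (1 : 𝔸) + s • B) ((1 : ℝ) • B) 0 :=
      ((hasDerivAt_id (0 : ℝ)).smul_const B).const_add 1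
    have hc : HasDerivAt (fun s : ℝ => NormedSpace.exp (s • (A + B)))
        ((A + B) * NormedSpace.exp ((0 : ℝ) • (A + B))) 0 := hasDerivAt_exp_smul_const' (A + B) 0
    have hd := (ha.mul hb).sub hc
    have e : A * NormedSpace.exp ((0 : ℝ) • A) * (1 + (0 : ℝ) • B) +
        NormedSpace.exp ((0 : ℝ) • A) * ((1 : ℝ) • B) -
        (A + B) * NormedSpace.exp ((0 : ℝ) • (A + B)) = 0 := by
      simp
    rw [e] at hd
    exact hd
  have hg0 : g 0 = 0 := by simp [hg]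
  have hlo : g =o[𝓝 0] fun s : ℝ => s := by
    have := hgd.isLittleO
    simpa [hg0] using this
  have htn : Tendsto (fun n : ℕ => t / (n : ℝ)) atTop (𝓝 0) :=
    tendsto_const_div_atTop_nhds_zero_nat t
  have hlo2 := hlo.comp_tendsto htn
  have hdiff : Tendsto (fun n : ℕ => (n : ℝ) * ‖g (t / n)‖) atTop (𝓝 0) := by
    have h2 : (fun n : ℕ => g (t / n)) =o[atTop] fun n : ℕ => (n : ℝ)⁻¹ := by
      refine hlo2.trans_isBigO ?_
      refine Asymptotics.IsBigO.of_bound |t| (Eventually.of_forall fun n => ?_)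
      simp only [Function.comp, Real.norm_eq_abs, div_eq_mul_inv, abs_mul]
      exact le_rfl
    have h3 := h2.norm_left.tendsto_div_nhds_zero
    refine h3.congr fun n => ?_
    rw [div_inv_eq_mul, mul_comm]
  set c : ℝ := t * (‖A‖ + ‖B‖) with hc
  have hnorm : ∀ n : ℕ, ‖NormedSpace.exp ((t / n) • A) * (1 + (t / n) • B)‖ ≤
      Real.exp (c / n) := by
    intro n
    have htn0 : 0 ≤ t / (n : ℝ) := by positivity
    have ha := norm_exp_le h1 ((t / n : ℝ) • A)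
    rw [norm_smul, Real.norm_of_nonneg htn0] at ha
    have hb : ‖(1 : 𝔸) + (t / n : ℝ) • B‖ ≤ Real.exp (t / n * ‖B‖) := by
      refine (norm_add_le _ _).trans ?_
      rw [norm_smul, Real.norm_of_nonneg htn0]
      have := Real.add_one_le_exp (t / n * ‖B‖)
      linarith
    refine (norm_mul_le _ _).trans ((mul_le_mul ha hb (norm_nonneg _)
      (Real.exp_pos _).le).trans (le_of_eq ?_))
    rw [← Real.exp_add]
    congr 1
    rw [hc]
    ring
  have hnorm2 : ∀ n : ℕ, ‖NormedSpace.exp ((t / n : ℝ) • (A + B))‖ ≤ Real.exp (c / n) := by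
    intro n
    have htn0 : 0 ≤ t / (n : ℝ) := by positivity
    have ha := norm_exp_le h1 ((t / n : ℝ) • (A + B))
    rw [norm_smul, Real.norm_of_nonneg htn0] at ha
    refine ha.trans (Real.exp_le_exp.2 ?_)
    have : t / (n : ℝ) * ‖A + B‖ ≤ t / n * (‖A‖ + ‖B‖) :=
      mul_le_mul_of_nonneg_left (norm_add_le _ _) htn0
    refine this.trans (le_of_eq ?_)
    rw [hc]; ring
  rw [tendsto_iff_norm_sub_tendsto_zero]
  have hbound : Tendsto (fun n : ℕ => Real.exp c * ((n : ℝ) * ‖g (t / n)‖)) atTop (𝓝 0) := by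
    simpa using hdiff.const_mul (Real.exp c)
  refine squeeze_zero' (Eventually.of_forall fun n => norm_nonneg _) ?_ hbound
  filter_upwards [eventually_ge_atTop 1] with n hn
  have hn0 : (n : ℝ) ≠ 0 := by positivity
  have e1 : NormedSpace.exp (t • (A + B)) = NormedSpace.exp ((t / n : ℝ) • (A + B)) ^ n := by
    rw [exp_pow]
    congr 2
    field_simp
  rw [e1]
  have hc0 : 0 ≤ c := by positivity
  have h := norm_pow_sub_pow h1 (Real.one_le_exp (by positivity : 0 ≤ c / n)) (hnorm n)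
    (hnorm2 n) n
  refine h.trans (le_of_eq ?_)
  rw [← Real.exp_nat_mul, mul_div_cancel₀ c hn0]
  simp only [hg]
  ring

variable {ι : Type*} {C : Cone 𝔸 ι} {L R : 𝔸}

/-- The scaling inequality for the perturbed generator. -/
theorem scaling (h1 : ‖(1 : 𝔸)‖ ≤ 1) (hL : C.Pos L) (hR : C.Pos R) (hRL : R * L = 1)
    (hLR : L * R = 1) {l t : ℝ} (hl : 1 ≤ l) (ht : 0 ≤ t) {W : 𝔸} (hW : C.Pos W) :
    C.Pos (l • NormedSpace.exp ((l * t) • (GG L R + W)) -
      NormedSpace.exp (t • (GG L R + W))) := by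
  have hl0 : 0 ≤ l := by linarith
  have ha := (trotter h1 (GG L R) W (by positivity : 0 ≤ l * t)).const_smul l
  have hb := trotter h1 (GG L R) W ht
  refine Cone.tendsto (ha.sub hb) (Eventually.of_forall fun n => ?_)
  have := step hL hR hRL hLR hl (by positivity : 0 ≤ t / (n : ℝ)) hW n 0
  rw [pow_zero, pow_zero, one_mul, one_mul] at this
  have e : l * t / (n : ℝ) = l * (t / n) := by ring
  simp only [e]
  exact this

end Pool.Agent.Q211.Pam
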